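import Pool.Agent.H630VC.Clq1

/-!
Circuits with few negations and randomised circuits need exponential size even to tell the graphs
that have a clique on `(1 - n^(-c)) n` of the `n` vertices from the graphs that can be coloured with
`n^κ` colours. Most gates are arbitrary nondecreasing real functions of two values; the others are
arbitrary gates, for example NOT gates. No bound on the depth is assumed.

Proof: the complement of a graph all of whose edges touch a small set `T` contains a clique on the
vertices outside `T`; the complement of a disjoint union of few cliques is a complete multipartite
graph with few parts. By the average-case approximation argument (level functions on equivalence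
relations with small support, and a random walk that takes care of the further gates) small circuits
do not tell such graphs apart.
-/

namespace Pool.Agent.Results.MP_0a1b52_lc.GapClique

open H630VC

/-- Let `α ≥ 0`, `c, ν > 0`, `κ < 1` and `2 α + 2 c + 6 ν < κ`. For all large `n` the following
holds. Take a randomised circuit (a finite family of circuits `l r`, `r ∈ R`, with lists `q r` of the
wires of the further gates) on graphs with `n` vertices that, for at least three quarters of the `r`
on each graph, outputs a value at least one if the graph has a clique with at least
`(1 - n^(-c)) n` vertices and a value less than one if it has a proper colouring with at most `n^κ`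
colours. If for each `r` the product of the numbers `w + 1` over the further gates (`w` is the
number of their wires) is at most `n^α`, then for some `r` the number of gates plus the number of
wires of the further gates is at least `2^(n^ν)`. -/
theorem result (κ α c ν : ℝ) (hκ : κ < 1) (hα : 0 ≤ α) (hc : 0 < c) (hν : 0 < ν)
    (h : 2 * α + 2 * c + 6 * ν < κ) :
    ∃ N : ℕ, ∀ n : ℕ, N ≤ n → ∀ (R : Type) [Fintype R] [Nonempty R]
      (l : R → List (SimpleGraph (Fin n) → ℝ))
      (q : R → List (List ((SimpleGraph (Fin n) → ℝ) × ℝ))),
      (∀ r, FProg (adjInputs (Fin n)) (l r) (q r)) →
      RSepClique ((1 - (n : ℝ) ^ (-c)) * n) ((n : ℝ) ^ κ) l →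
      (∀ r, (combos (q r) : ℝ) ≤ (n : ℝ) ^ α) →
      ∃ r, (2 : ℝ) ^ ((n : ℝ) ^ ν) ≤ (l r).length + wires (q r) :=
  asymp_clique κ α c ν hκ.le hc.le hα hν h

end Pool.Agent.Results.MP_0a1b52_lc.GapClique
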