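import Pool.Agent.H560R2.Neg6

/-!
Circuits for CLIQUE with few negations.

Circuits consist of monotone gates of fan-in at most two and of arbitrary further gates (for
instance NOT gates), and they may get for free all Boolean functions of the pairs outside a
rectangle `A × B` of pairs. A circuit of size less than `2^d` for CLIQUE has a chain of about
`|A||B| / d^2` graphs along which the bits entering the further gates change at every step, the
consecutive graphs differing only inside the rectangle. So it has at least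
`log₂ (|A||B|) - O(log d)` NOT gates.

The proof: the OR of many disjoint copies of the function POLY is embedded into CLIQUE, the
variables of the copies being pairs of the rectangle; a chain is built copy by copy; if in some
copy no rejected input changes the bits entering the further gates, then these gates can be
replaced by constants and the OR of the frozen circuit and of the bits that were `0` is a small
monotone circuit for POLY.
-/

namespace Pool.Agent.Results.MP_0a1b52_lc.NegationLimit

/-- A Boolean function `φ` of `n`-vertex graphs that depends in an arbitrary way on the pairs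
that do not join `A` to `B`, while in the pairs that join `A` to `B` it is monotone and depends on
at most `w` of them (those in `S`). Every variable is such a function if `w ≥ 1`. -/
def FreeOutside {n : ℕ} (A B : Finset (Fin n)) (w : ℕ) (φ : SimpleGraph (Fin n) → Bool) : Prop :=
  ∃ S : Finset (Fin n × Fin n), (∀ e ∈ S, e.1 ∈ A ∧ e.2 ∈ B) ∧ S.card ≤ w ∧
    ∀ G G' : SimpleGraph (Fin n),
      (∀ u v, ¬ (u ∈ A ∧ v ∈ B ∨ u ∈ B ∧ v ∈ A) → (G.Adj u v ↔ G'.Adj u v)) →
      (∀ e ∈ S, G.Adj e.1 e.2 → G'.Adj e.1 e.2) → φ G = true → φ G' = true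

/-- `G` has a clique with more than `√n` vertices. -/
def HasBigClique {n : ℕ} (G : SimpleGraph (Fin n)) : Prop :=
  ∃ c : Finset (Fin n), G.IsClique (c : Set (Fin n)) ∧ Real.sqrt (n : ℝ) < (c.card : ℝ)

/-- A circuit with gates `i : Fin s`: gate `i` has `w i` inputs, namely `a i j`, each a function
`FreeOutside A B d` or an earlier gate, and computes the function `op i` of its input bits
`inp G i`. The gates outside `T` are monotone with at most two inputs, the gates in `T` are
arbitrary (for instance NOT gates). Let `A`, `B` be disjoint sets of vertices,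
`2(|A| + |B|) ≤ n`, `n ≥ 2^88 (⌊log₂ d⌋+1)^8 d^4`, and
`M = |A| ⌊|B| / (2^42 (⌊log₂ d⌋+1)^4 d^2)⌋`.

If the circuit decides the clique function and `s + ∑_{i ∈ T} w i < 2^d`, then there is a chain
`G 0 ≤ ... ≤ G M` of graphs without big clique such that at every step only pairs that join `A`
to `B` change and some input bit of some gate in `T` changes. In particular
`∏_{i ∈ T} (w i + 1) > M`. -/
theorem result (d n : ℕ) (hd : 1 ≤ d) (hn : 2 ^ 88 * (Nat.log 2 d + 1) ^ 8 * d ^ 4 ≤ n)
    (A B : Finset (Fin n)) (hAB : Disjoint A B) (hc : 2 * (A.card + B.card) ≤ n)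
    (s : ℕ) (T : Finset (Fin s)) (w : Fin s → ℕ)
    (a : ∀ i, Fin (w i) → {φ : SimpleGraph (Fin n) → Bool // FreeOutside A B d φ} ⊕ Fin s)
    (htop : ∀ i j k, a i j = Sum.inr k → k < i)
    (op : ∀ i, (Fin (w i) → Bool) → Bool) (hmon : ∀ i ∉ T, w i ≤ 2 ∧ Monotone (op i))
    (val : SimpleGraph (Fin n) → Fin s → Bool)
    (inp : SimpleGraph (Fin n) → ∀ i, Fin (w i) → Bool)
    (hinp : ∀ G i j, inp G i j = Sum.elim (fun φ => φ.1 G) (val G) (a i j))
    (hval : ∀ G i, val G i = op i (inp G i))
    (o : Fin s) (ho : ∀ G, val G o = true ↔ HasBigClique G)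
    (hsize : s + ∑ i ∈ T, w i < 2 ^ d) (M : ℕ)
    (hM : M = A.card * (B.card / (2 ^ 42 * (Nat.log 2 d + 1) ^ 4 * d ^ 2))) :
    (∃ G : ℕ → SimpleGraph (Fin n),
      (∀ i < M, G i ≤ G (i + 1) ∧
        (∀ u v, ¬ (u ∈ A ∧ v ∈ B ∨ u ∈ B ∧ v ∈ A) → ((G i).Adj u v ↔ (G (i + 1)).Adj u v)) ∧
        ∃ t ∈ T, inp (G i) t ≠ inp (G (i + 1)) t) ∧
      (∀ i ≤ M, ¬ HasBigClique (G i))) ∧
    M < ∏ i ∈ T, (w i + 1) := by
  classical
  subst hM
  have hfree : ∀ φ : {φ : SimpleGraph (Fin n) → Bool // FreeOutside A B d φ},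
      Pool.Agent.H560R2.FreeOutB (Pool.Agent.H560R2.rect A B hAB) d φ.1 := by
    rintro ⟨φ, S, h1, h2, h3⟩
    refine ⟨S.image (fun e => s(e.1, e.2)), ?_, Finset.card_image_le.trans h2, ?_⟩
    · intro e he
      obtain ⟨p, hp, rfl⟩ := Finset.mem_image.mp he
      exact Or.inl (h1 p hp)
    · intro G G' k1 k2 k3
      refine h3 G G' (fun u v huv => k1 u v huv) (fun e he => k2 e.1 e.2 ?_) k3
      exact Finset.mem_image_of_mem _ he
  have hinp' : ∀ G i, inp G i = fun j => Sum.elim (fun φ => φ.1 G) (val G) (a i j) :=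
    fun G i => funext (fun j => hinp G i j)
  obtain ⟨C, c1, c2, c3, c4, c5⟩ := Pool.Agent.H560R2.to_circuit T w a op htop hmon
    (fun φ G => φ.1 G) val (fun G i => by rw [hval, hinp']) s le_rfl
  have hTf : T.filter (fun i => i.val < s) = T := Finset.filter_true_of_mem (fun i _ => i.isLt)
  rw [hTf] at c3 c4
  obtain ⟨G, h1, h2⟩ := Pool.Agent.H560R2.rect_lower d n hd hn A B hAB hc
    (fun φ : {φ : SimpleGraph (Fin n) → Bool // FreeOutside A B d φ} => φ.1) hfree C
    (Pool.Agent.H520R2.NM.Wire.gate o) (fun G => by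
      show C.vals (fun φ => φ.1 G) o = true ↔ _
      rw [c1]
      exact ho G) (by omega)
  refine ⟨⟨G, fun i hi => ⟨(h1 i hi).1, (h1 i hi).2.1, ?_⟩, h2⟩, ?_⟩
  · obtain ⟨t, ht, j, hj⟩ := c5 _ _ (h1 i hi).2.2
    refine ⟨t, ht, fun h => hj ?_⟩
    rw [← hinp, ← hinp, h]
  · rw [← c4]
    refine C.chain_le _ (fun i φ => φ.1 (G i)) (fun i hi φ => ?_) (fun i hi => (h1 i hi).2.2)
    obtain ⟨S, h3, h4, h5⟩ := φ.2
    show φ.1 (G i) ≤ φ.1 (G (i + 1))
    rcases hb : φ.1 (G i) with _ | _
    · exact Bool.false_le _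
    · rw [h5 (G i) (G (i + 1)) (h1 i hi).2.1 (fun e _ he => (h1 i hi).1 he) hb]

end Pool.Agent.Results.MP_0a1b52_lc.NegationLimit
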