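import Pool.Agent.H560R2.Free2

/-!
Every small circuit for CLIQUE is non-monotone inside every small vertex set.

Circuits over the full binary basis; the inputs may be arbitrary Boolean functions of the pairs
outside `H`. If all gates are monotone in the pairs of `H` and `H` touches at least
`2^43 (log d + 1)^4 d^2` vertices then the size is at least `2^d`.
-/

namespace Pool.Agent.Results.MP_0a1b52_lc.NonMonotoneEverywhere

/-- A Boolean function `φ` of `n`-vertex graphs that depends in an arbitrary way on the pairs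
outside `H`, while in the pairs of `H` it is monotone and depends on at most `w` of them
(those in `S`). -/
def FreeOutside {n : ℕ} (H : SimpleGraph (Fin n)) (w : ℕ)
    (φ : SimpleGraph (Fin n) → Bool) : Prop :=
  ∃ S : Finset (Sym2 (Fin n)), (∀ e ∈ S, e ∈ H.edgeSet) ∧ S.card ≤ w ∧
    ∀ G G' : SimpleGraph (Fin n),
      (∀ u v, ¬ H.Adj u v → (G.Adj u v ↔ G'.Adj u v)) →
      (∀ u v, s(u, v) ∈ S → G.Adj u v → G'.Adj u v) → φ G = true → φ G' = true

/-- Let `H` be a graph on `n` vertices with at least `2^43 (⌊log₂ d⌋+1)^4 d^2` non-isolated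
vertices, `n ≥ 2^88 (⌊log₂ d⌋+1)^8 d^4`. In every circuit with fewer than `2^d` gates (arbitrary
binary Boolean operations, inputs `FreeOutside H d`) which decides whether an `n`-vertex graph has
a clique with more than `√n` vertices, some gate is not monotone in the pairs of `H`. -/
theorem result (d n : ℕ) (hn : 2 ^ 88 * (Nat.log 2 d + 1) ^ 8 * d ^ 4 ≤ n)
    (H : SimpleGraph (Fin n))
    (hH : 2 ^ 43 * (Nat.log 2 d + 1) ^ 4 * d ^ 2 ≤ H.support.ncard)
    (s : ℕ) (op : Fin s → Bool → Bool → Bool)
    (a b : Fin s → {φ : SimpleGraph (Fin n) → Bool // FreeOutside H d φ} ⊕ Fin s)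
    (htop : ∀ i j, (a i = Sum.inr j → j < i) ∧ (b i = Sum.inr j → j < i))
    (val : SimpleGraph (Fin n) → Fin s → Bool)
    (hval : ∀ G i, val G i = op i (Sum.elim (fun φ => φ.1 G) (val G) (a i))
      (Sum.elim (fun φ => φ.1 G) (val G) (b i)))
    (o : Fin s)
    (ho : ∀ G, val G o = true ↔ ∃ c : Finset (Fin n), G.IsClique (c : Set (Fin n)) ∧
        Real.sqrt (n : ℝ) < (c.card : ℝ))
    (hs : s < 2 ^ d) :
    ∃ (i : Fin s) (G G' : SimpleGraph (Fin n)), G ≤ G' ∧
      (∀ u v, ¬ H.Adj u v → (G.Adj u v ↔ G'.Adj u v)) ∧ val G i = true ∧ val G' i = false := by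
  by_contra hcon
  push Not at hcon
  have h := Pool.Agent.H560R2.full_basis_lower d n hn H hH s op a b htop val hval
    (fun i G G' h1 h2 h3 => by
      have := hcon i G G' h1 h2 h3
      rcases h4 : val G' i with _ | _
      · exact absurd h4 this
      · rfl) o ho
  omega

end Pool.Agent.Results.MP_0a1b52_lc.NonMonotoneEverywhere
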